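import Mathlib
import Pool.Agent.Q104.Spec

/-!
# The energy of a tree is not bounded by a constant times `2 m / √λ₁`
-/

set_option autoImplicit false

namespace Pool.Agent.Results.MP_4a987e_co.Spider

open Matrix Finset

/-- adjacency of the subdivided star with `k` legs of length two: `none` is the centre, `(i, false)`
its neighbour on leg `i`, and `(i, true)` the leaf of leg `i` -/
def adj {k : ℕ} : Option (Fin k × Bool) → Option (Fin k × Bool) → Prop
  | none, some (_, false) => True
  | some (_, false), none => True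
  | some (i, false), some (j, true) => i = j
  | some (i, true), some (j, false) => i = j
  | _, _ => False

instance {k : ℕ} : DecidableRel (adj (k := k)) := fun x y => by
  rcases x with _ | ⟨i, _ | _⟩ <;> rcases y with _ | ⟨j, _ | _⟩ <;> unfold adj <;> infer_instance

/-- the subdivided star -/
def spider (k : ℕ) : SimpleGraph (Option (Fin k × Bool)) where
  Adj := adj
  symm := ⟨by
    intro x y
    rcases x with _ | ⟨i, _ | _⟩ <;> rcases y with _ | ⟨j, _ | _⟩ <;> simp [adj, eq_comm]⟩
  loopless := ⟨by
    intro x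
    rcases x with _ | ⟨i, _ | _⟩ <;> simp [adj]⟩

instance {k : ℕ} : DecidableRel (spider k).Adj := inferInstanceAs (DecidableRel (adj (k := k)))

section
variable {k : ℕ} (i j : Fin k)

@[simp] lemma adj1 : (spider k).Adj none (some (i, false)) := trivial
@[simp] lemma adj2 : (spider k).Adj (some (i, false)) none := trivial
@[simp] lemma adj3 : (spider k).Adj (some (i, false)) (some (j, true)) ↔ i = j := Iff.rfl
@[simp] lemma adj4 : (spider k).Adj (some (i, true)) (some (j, false)) ↔ i = j := Iff.rfl
@[simp] lemma adj5 : ¬ (spider k).Adj none none := fun h => h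
@[simp] lemma adj6 : ¬ (spider k).Adj none (some (i, true)) := fun h => h
@[simp] lemma adj7 : ¬ (spider k).Adj (some (i, true)) none := fun h => h
@[simp] lemma adj8 : ¬ (spider k).Adj (some (i, true)) (some (j, true)) := fun h => h
@[simp] lemma adj9 : ¬ (spider k).Adj (some (i, false)) (some (j, false)) := fun h => h

end

/-- the mate of a vertex along its leg -/
def mate {k : ℕ} : Option (Fin k × Bool) → Option (Fin k × Bool)
  | none => none
  | some (i, b) => some (i, !b)

lemma mate_mate {k : ℕ} (x : Option (Fin k × Bool)) : mate (mate x) = x := by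
  rcases x with _ | ⟨i, b⟩ <;> simp [mate]

lemma connected (k : ℕ) : (spider k).Connected := by
  have h : ∀ x, (spider k).Reachable none x := by
    intro x
    have h1 : ∀ i : Fin k, (spider k).Reachable none (some (i, false)) := fun i =>
      SimpleGraph.Adj.reachable (by simp)
    rcases x with _ | ⟨i, _ | _⟩
    · exact SimpleGraph.Reachable.refl _
    · exact h1 i
    · exact (h1 i).trans (SimpleGraph.Adj.reachable (by simp))
  exact { preconnected := fun x y => (h x).symm.trans (h y), nonempty := ⟨none⟩ }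

lemma deg_none (k : ℕ) : (spider k).degree none = k := by
  rw [← SimpleGraph.card_neighborFinset_eq_degree, SimpleGraph.neighborFinset_eq_filter]
  rw [show (univ.filter fun w => (spider k).Adj none w)
    = (univ : Finset (Fin k)).image (fun i => some (i, false)) from ?_]
  · rw [Finset.card_image_of_injective _ (fun i j h => by simpa using h)]
    simp
  · ext x
    rcases x with _ | ⟨i, _ | _⟩ <;> simp

lemma deg_false (k : ℕ) (i : Fin k) : (spider k).degree (some (i, false)) = 2 := by
  rw [← SimpleGraph.card_neighborFinset_eq_degree, SimpleGraph.neighborFinset_eq_filter]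
  rw [show (univ.filter fun w => (spider k).Adj (some (i, false)) w)
    = {none, some (i, true)} from ?_]
  · rw [Finset.card_pair (by simp)]
  · ext x
    rcases x with _ | ⟨j, _ | _⟩ <;> simp [eq_comm]

lemma deg_true (k : ℕ) (i : Fin k) : (spider k).degree (some (i, true)) = 1 := by
  rw [← SimpleGraph.card_neighborFinset_eq_degree, SimpleGraph.neighborFinset_eq_filter]
  rw [show (univ.filter fun w => (spider k).Adj (some (i, true)) w)
    = {some (i, false)} from ?_]
  · simp
  · ext x
    rcases x with _ | ⟨j, _ | _⟩ <;> simp [eq_comm]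

lemma card_edges (k : ℕ) : (spider k).edgeFinset.card = 2 * k := by
  have h := (spider k).sum_degrees_eq_twice_card_edges
  rw [Fintype.sum_option, Fintype.sum_prod_type] at h
  simp only [Fintype.sum_bool, deg_none, deg_false, deg_true, sum_const, card_univ,
    Fintype.card_fin, smul_eq_mul] at h
  omega

lemma isTree (k : ℕ) : (spider k).IsTree := by
  rw [SimpleGraph.isTree_iff_connected_and_card]
  refine ⟨connected k, ?_⟩
  rw [Nat.card_eq_fintype_card, Nat.card_eq_fintype_card, ← SimpleGraph.edgeFinset_card,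
    card_edges]
  simp [Fintype.card_option]
  omega

/-- the signed-permutation matrix of the matching -/
def M (k : ℕ) : Matrix (Option (Fin k × Bool)) (Option (Fin k × Bool)) ℝ :=
  fun x y => if y = mate x then 1 else 0

lemma M_contr (k : ℕ) (x : Option (Fin k × Bool) → ℝ) : |x ⬝ᵥ (M k *ᵥ x)| ≤ x ⬝ᵥ x := by
  have h1 : M k *ᵥ x = fun i => x (mate i) := by
    ext i
    simp [M, Matrix.mulVec, dotProduct]
  have h2 : ∑ i, x (mate i) ^ 2 = ∑ i, x i ^ 2 :=
    Equiv.sum_comp (⟨mate, mate, mate_mate, mate_mate⟩ : Equiv _ _) (fun i => x i ^ 2)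
  rw [h1]
  simp only [dotProduct]
  have h3 : ∑ i, x i * x i = ∑ i, x i ^ 2 := Finset.sum_congr rfl fun i _ => by ring
  rw [h3, abs_le]
  constructor
  · have : 0 ≤ ∑ i, (x i + x (mate i)) ^ 2 := Finset.sum_nonneg fun i _ => sq_nonneg _
    have h4 : ∑ i, (x i + x (mate i)) ^ 2
        = ∑ i, x i ^ 2 + 2 * ∑ i, x i * x (mate i) + ∑ i, x (mate i) ^ 2 := by
      rw [Finset.mul_sum, ← Finset.sum_add_distrib, ← Finset.sum_add_distrib]
      exact Finset.sum_congr rfl fun i _ => by ring
    linarith
  · have : 0 ≤ ∑ i, (x i - x (mate i)) ^ 2 := Finset.sum_nonneg fun i _ => sq_nonneg _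
    have h4 : ∑ i, (x i - x (mate i)) ^ 2
        = ∑ i, x i ^ 2 - 2 * ∑ i, x i * x (mate i) + ∑ i, x (mate i) ^ 2 := by
      rw [Finset.mul_sum, ← Finset.sum_sub_distrib, ← Finset.sum_add_distrib]
      exact Finset.sum_congr rfl fun i _ => by ring
    linarith

lemma trace_MA (k : ℕ) : (M k * (spider k).adjMatrix ℝ).trace = 2 * k := by
  have h1 : ∀ i, (M k * (spider k).adjMatrix ℝ) i i = if (spider k).Adj (mate i) i then 1 else 0 := by
    intro i
    rw [Matrix.mul_apply]
    simp only [M, ite_mul, one_mul, zero_mul, Finset.sum_ite_eq', Finset.mem_univ, if_true,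
      SimpleGraph.adjMatrix_apply]
  simp only [Matrix.trace, Matrix.diag_apply, h1]
  rw [Fintype.sum_option, Fintype.sum_prod_type]
  simp [mate]
  ring

/-- the test vector: `√k` at the centre and `1` at each of its neighbours -/
noncomputable def z (k : ℕ) : Option (Fin k × Bool) → ℝ
  | none => Real.sqrt k
  | some (_, false) => 1
  | some (_, true) => 0

lemma z_norm (k : ℕ) : z k ⬝ᵥ z k = 2 * k := by
  simp only [dotProduct]
  rw [Fintype.sum_option, Fintype.sum_prod_type]
  simp [z, Real.mul_self_sqrt]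
  ring

lemma z_quad (k : ℕ) : z k ⬝ᵥ ((spider k).adjMatrix ℝ *ᵥ z k) = 2 * k * Real.sqrt k := by
  simp only [dotProduct, Matrix.mulVec, SimpleGraph.adjMatrix_apply]
  rw [Fintype.sum_option, Fintype.sum_prod_type]
  simp only [Fintype.sum_option, Fintype.sum_prod_type]
  simp [z]
  ring

/-- **Elphick's bound fails for trees, by an arbitrarily large factor.** -/
theorem result (C : ℝ) : ∃ (V : Type) (_ : Fintype V) (_ : DecidableEq V) (G : SimpleGraph V)
    (_ : DecidableRel G.Adj) (hA : (G.adjMatrix ℝ).IsHermitian) (lam : ℝ),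
    G.IsTree ∧ 1 ≤ G.edgeFinset.card ∧ IsGreatest (Set.range hA.eigenvalues) lam ∧
      C * (2 * (G.edgeFinset.card : ℝ) / Real.sqrt lam) < ∑ i, |hA.eigenvalues i| := by
  obtain ⟨k, hk⟩ := exists_nat_gt (max 1 ((2 * |C|) ^ 4))
  have hk1 : (1 : ℝ) < k := lt_of_le_of_lt (le_max_left _ _) hk
  have hk2 : (2 * |C|) ^ 4 < k := lt_of_le_of_lt (le_max_right _ _) hk
  have hk0 : 1 ≤ k := by exact_mod_cast hk1.le
  have hA : ((spider k).adjMatrix ℝ).IsHermitian := (spider k).isSymm_adjMatrix
  obtain ⟨j, hj⟩ := Finite.exists_max hA.eigenvalues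
  have hE : (2 * k : ℝ) ≤ ∑ i, |hA.eigenvalues i| := by
    rw [← trace_MA k]
    exact Q104.Spec.trace_le_nuc hA _ (M_contr k)
  have hlam : Real.sqrt k ≤ hA.eigenvalues j := by
    have h := Q104.Spec.quad_le hA hj (z k)
    rw [z_quad, z_norm] at h
    have : (0 : ℝ) < 2 * k := by positivity
    nlinarith
  refine ⟨_, inferInstance, inferInstance, spider k, inferInstance, hA, hA.eigenvalues j,
    isTree k, ?_, ⟨⟨j, rfl⟩, ?_⟩, ?_⟩
  · rw [card_edges]; omega
  · rintro _ ⟨i, rfl⟩
    exact hj i
  · refine lt_of_lt_of_le ?_ hE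
    rw [card_edges]
    push_cast
    have hs1 : (0 : ℝ) < Real.sqrt k := Real.sqrt_pos.mpr (by linarith)
    have hs2 : 0 < Real.sqrt (hA.eigenvalues j) := Real.sqrt_pos.mpr (lt_of_lt_of_le hs1 hlam)
    have hs3 : 2 * |C| < Real.sqrt (hA.eigenvalues j) := by
      apply Real.lt_sqrt_of_sq_lt
      refine lt_of_lt_of_le ?_ hlam
      apply Real.lt_sqrt_of_sq_lt
      calc ((2 * |C|) ^ 2) ^ 2 = (2 * |C|) ^ 4 := by ring
        _ < (k : ℝ) := hk2
    rw [← mul_div_assoc, div_lt_iff₀ hs2]
    have h5 : C ≤ |C| := le_abs_self C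
    have h6 : (0 : ℝ) < k := by linarith
    nlinarith [mul_lt_mul_of_pos_left hs3 h6, mul_le_mul_of_nonneg_left h5 h6.le]

end Pool.Agent.Results.MP_4a987e_co.Spider
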